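import Pool.Agent.TH711.SV.Main

/-!
# Sublinear bounds for the simplicial volume of closed affine manifolds

A closed connected affine manifold `M` of dimension `n = m + 1` is given by a connected covering
space `X` (for example the universal covering), the group `Γ` of deck transformations, which acts
freely and properly discontinuously with compact quotient, the developing map `dev : X → ℝⁿ`, a
local homeomorphism, and the affine holonomy `p ↦ lin γ p + trans γ`. `M` is oriented by `dev` if the linear parts of
the holonomy have positive determinant.

Real singular chains of `M = Γ \ X` are chains of `X` modulo the chains `γ σ - σ`. A chain `c` is a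
fundamental cycle of `M` if it is a cycle in `M` and if at every point `x` of `X` the locally finite
cycle `∑ γ c` (sum over `Γ`) has the same class in the local homology `H_n(X, X - x)` as the
positively oriented affine simplices around `x`. The simplicial volume `‖M‖` is the infimum of
`∑ |a_i|` over the real fundamental cycles `∑ a_i σ_i`, the integral simplicial volume `‖M‖_ℤ` is
the same infimum over the integral ones; `‖M‖ ≤ ‖M‖_ℤ` is the trivial bound.

Theorem. Let `C` be a class of closed oriented affine manifolds of dimension `n ≥ 1` which is closed
under finite coverings (for example all of them, or those with `X` simply connected and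
`Γ = π₁(M)`), and let `P` be a property which all sufficiently deep finite coverings of each member
of `C` have. Then the following are equivalent.
* `‖M‖ = 0` for all `M` in `C`.
* `‖M‖` is bounded on the `M` in `C` with property `P`.
* `‖M‖ ≤ ε rank(Γ) + B(ε)` for these `M` and every `ε > 0`, where `rank(Γ)` is the least number of
  generators.
* `‖M‖ ≤ ε ‖M‖_ℤ + B(ε)` for these `M` and every `ε > 0`.
* `‖M‖ ≤ ε size(M) + B(ε)` for these `M` and every `ε > 0`, for any given function `size ≥ 0` that
  grows at most linearly in finite coverings (such as the number of simplices of a triangulation).

Proof. `‖M‖` is multiplicative for finite coverings: transfer and projection of fundamental cycles.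
A closed affine manifold of positive dimension has finite coverings of arbitrarily large degree: its
holonomy group is infinite, because for a finite group of affine maps `g` the function
`∑ ‖g p‖ ^ 2` is invariant and strictly convex and would have a maximum on `M`, and it is a finitely
generated linear group, so Malcev's theorem applies. All this is proved in Lean.
-/

set_option autoImplicit false

namespace Pool.Agent.Results.MP_f22a19_gt.SublinearSimplicialVolume

open Pool.Agent.TH711.SV Pool.Agent.TH711.SV.AffineManifold

/-- **The simplicial volumes of closed oriented affine manifolds of dimension `m + 1` vanish if and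
only if they are bounded, if and only if they are sublinear in the rank of the fundamental group, in
the integral simplicial volume, or in any other function that grows at most linearly in finite
coverings; and it is enough to know this for sufficiently deep coverings.** -/
theorem result (m : ℕ) (C P : AffineManifold (m + 1) → Prop) (hC : IsCoveringClosed C)
    (hP : HoldsDeep C P) (size : AffineManifold (m + 1) → ℝ) (hsize : GrowsLinearly C size) :
    [∀ M, C M → M.simplicialVolume = 0,
      ∃ B : ℝ, ∀ M, C M → P M → M.simplicialVolume ≤ B,
      IsSublinear C P fun M => Group.rank M.Γ,
      IsSublinear C P integralSimplicialVolume,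
      IsSublinear C P size].TFAE := by
  tfae_have 1 → 2 := fun h => ⟨0, fun M hM _ => (h M hM).le⟩
  tfae_have 1 → 3 := by
    intro h ε hε
    refine ⟨0, fun M hM _ => ?_⟩
    rw [h M hM]
    positivity
  tfae_have 1 → 4 := by
    intro h ε hε
    refine ⟨0, fun M hM _ => ?_⟩
    rw [h M hM, add_zero]
    exact mul_nonneg hε.le M.integralSimplicialVolume_nonneg
  tfae_have 1 → 5 := by
    intro h ε hε
    refine ⟨0, fun M hM _ => ?_⟩
    rw [h M hM, add_zero]
    exact mul_nonneg hε.le (hsize M hM).1
  tfae_have 2 → 1 := by
    rintro ⟨B, hB⟩ M hM
    refine eq_zero_of_sublinear (size := fun _ => 0) hC.oriented hC.cover hP ?_ ?_ M hM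
    · intro M _ H hH
      simp
    · intro ε _
      exact ⟨B, fun M hM hPM => by rw [mul_zero, zero_add]; exact hB M hM hPM⟩
  tfae_have 3 → 1 := by
    intro h M hM
    refine eq_zero_of_sublinear (size := fun M => (Group.rank M.Γ : ℝ)) hC.oriented hC.cover hP
      ?_ h M hM
    intro M _ H hH
    exact_mod_cast M.rank_cover H hH
  tfae_have 4 → 1 := by
    intro h M hM
    exact eq_zero_of_sublinear (size := integralSimplicialVolume) hC.oriented hC.cover hP
      (fun M hM H hH => M.integralSimplicialVolume_cover (hC.cycle M hM) H hH) h M hM
  tfae_have 5 → 1 := by
    intro h M hM
    exact eq_zero_of_sublinear (size := size) hC.oriented hC.cover hP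
      (fun M hM H hH => (hsize M hM).2 H hH) h M hM
  tfae_finish

end Pool.Agent.Results.MP_f22a19_gt.SublinearSimplicialVolume
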